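import Pool.Agent.H95.GHK.JKT
import Pool.Agent.H91.GHK.JKZ
import Pool.Agent.H74.GHK.JKG2

/-!
Row JKG of the board ghk (MP_52e316_nt): the oscillating integral, no hypotheses.
-/

set_option autoImplicit false

namespace Pool.Agent.H74.GHK

theorem c_CORE : Pool.Agent.H95.GHK.T_CORE := core

theorem pf_JKG95 : Pool.Agent.H95.GHK.T_JKG := Pool.Agent.H95.GHK.jkg_of_core c_CORE

theorem pf_JKG : Pool.Agent.H91.GHK.T_JKG := by
  intro m hm
  obtain ⟨r, h0, h1, h2⟩ := pf_JKG95 m hm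
  refine ⟨r, h0, h1, fun A M => ?_⟩
  obtain ⟨C, hC, hh⟩ := h2 A M
  refine ⟨C, hC, fun mu a b w w' c d => ?_⟩
  have h3 := hh mu a b w w' c d
  have e : ∀ z, Pool.Agent.H91.GHK.ct m A r z = Pool.Agent.H95.GHK.ct m A r z := by
    intro z
    unfold Pool.Agent.H91.GHK.ct Pool.Agent.H95.GHK.ct
    split_ifs <;> rfl
  simp only [e]
  exact h3

theorem c_JKZ : Pool.Agent.H69.GK.T_JKZ := Pool.Agent.H91.GHK.pf_JKZ pf_JKG

end Pool.Agent.H74.GHK
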