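import Pool.Agent.H16.GHK.PH3
import Pool.Agent.H87.GHK.LIN
import Pool.Agent.H40.GHK.FUB

/-!
Board ghk (MP_52e316_nt), second copy of the assembly JKG: the abstract part, for two flags.
-/

set_option autoImplicit false

namespace Pool.Agent.H74.GHK

open Matrix Pool.Agent.H40.GHK Pool.Agent.H16.GHK MeasureTheory

/-- the real minor -/
noncomputable def dr {m : ℕ} (E z : Matrix (Fin m) (Fin m) ℝ) : ℝ :=
  (E * (zᵀ * z) * E + 1 - E).det

lemma cM_det {m : ℕ} (A : Matrix (Fin m) (Fin m) ℝ) : (cM A).det = ((A.det : ℝ) : ℂ) := by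
  have h := RingHom.map_det Complex.ofRealHom A
  exact h.symm

lemma cM_add {m : ℕ} (A B : Matrix (Fin m) (Fin m) ℝ) : cM (A + B) = cM A + cM B := by
  ext i j
  simp [cM]

lemma cM_smul {m : ℕ} (s : ℝ) (A : Matrix (Fin m) (Fin m) ℝ) : cM (s • A) = (s : ℂ) • cM A := by
  ext i j
  simp [cM]

lemma us_real {m : ℕ} {E : Matrix (Fin m) (Fin m) ℝ} (hE : Prj E) (z : Matrix (Fin m) (Fin m) ℝ)
    (a b : Fin m) (s : ℝ) :
    us E z a b (s : ℂ) = ((dr E (z + s • Pool.Agent.H16.GHK.eab a b) : ℝ) : ℂ) := by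
  have h1 : Ws z a b (s : ℂ) = cM ((z + s • Pool.Agent.H16.GHK.eab a b)ᵀ *
      (z + s • Pool.Agent.H16.GHK.eab a b) - 1) := by
    unfold Ws Zs
    rw [cM_sub, cM_mul, cM_tr, cM_add, cM_smul, cM_one]
  unfold us
  rw [h1, ← cM_mul, ← cM_mul, ← cM_one, ← cM_add, cM_det]
  congr 2
  have h2 : E * (((z + s • Pool.Agent.H16.GHK.eab a b)ᵀ *
      (z + s • Pool.Agent.H16.GHK.eab a b)) - 1) * E =
      E * ((z + s • Pool.Agent.H16.GHK.eab a b)ᵀ *
      (z + s • Pool.Agent.H16.GHK.eab a b)) * E - E * E := by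
    rw [mul_sub, sub_mul, mul_one]
  rw [h2, hE.2]
  abel

lemma log_bd {u : ℂ} (h : ‖u - 1‖ ≤ 1 / 2) : ‖Complex.log u‖ ≤ 5 := by
  have h1 : ‖u‖ ≤ 3 / 2 := by
    have := norm_add_le (u - 1) 1
    rw [sub_add_cancel, norm_one] at this
    linarith
  have h2 : 1 / 2 ≤ ‖u‖ := by
    have := norm_sub_norm_le (1 : ℂ) u
    rw [norm_one, norm_sub_rev] at this
    linarith
  have h3 : 0 < ‖u‖ := by linarith
  refine (Complex.norm_le_abs_re_add_abs_im _).trans ?_
  rw [Complex.log_re, Complex.log_im]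
  have h4 : |Complex.arg u| ≤ Real.pi := Complex.abs_arg_le_pi u
  have h5 := Real.pi_le_four
  have h6 : |Real.log ‖u‖| ≤ 1 := by
    rw [abs_le]
    constructor
    · have := Real.one_sub_inv_le_log_of_pos h3
      have h7 : ‖u‖⁻¹ ≤ 2 := by
        rw [inv_le_comm₀ h3 (by norm_num)]
        linarith
      linarith
    · have := Real.log_le_sub_one_of_pos h3
      linarith
  linarith

/-- the integrand without the cutoff -/
noncomputable def gf {m : ℕ} (E E' : Fin m → Matrix (Fin m) (Fin m) ℝ) (c : Fin m → ℂ)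
    (z : Matrix (Fin m) (Fin m) ℝ) : ℂ :=
  Complex.exp (∑ j, c j * (Real.log (dr (E j) z) : ℝ)) *
    (starRingEnd ℂ) (Complex.exp (∑ j, c j * (Real.log (dr (E' j) z) : ℝ)))

/-- the gradient of the phase -/
noncomputable def gS {m : ℕ} (E E' : Fin m → Matrix (Fin m) (Fin m) ℝ) (β : Fin m → ℝ) : ℝ :=
  ∑ j, β j * Real.sqrt (fsq (E j - E' j))

lemma gS_le {m : ℕ} {E E' : Fin m → Matrix (Fin m) (Fin m) ℝ} (hE : Flg E) (hE' : Flg E')
    {β : Fin m → ℝ} (hβ : ∀ j, 0 ≤ β j) :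
    gS E E' β ≤ m * Real.sqrt (fsq (∑ j, β j • (E j - E' j))) := by
  have h1 : ∀ j, β j * Real.sqrt (fsq (E j - E' j)) ≤
      Real.sqrt (fsq (∑ j, β j • (E j - E' j))) := by
    intro j
    refine Real.le_sqrt_of_sq_le ?_
    rw [mul_pow, Real.sq_sqrt (fsq_nonneg _)]
    refine le_trans ?_ (grd_pos hE hE' Finset.univ β (fun i _ => hβ i))
    exact Finset.single_le_sum (f := fun i => β i ^ 2 * fsq (E i - E' i))
      (fun i _ => mul_nonneg (sq_nonneg _) (fsq_nonneg _)) (Finset.mem_univ j)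
  unfold gS
  calc ∑ j, β j * Real.sqrt (fsq (E j - E' j)) ≤
      ∑ _j : Fin m, Real.sqrt (fsq (∑ j, β j • (E j - E' j))) :=
        Finset.sum_le_sum (fun j _ => h1 j)
    _ = _ := by simp

/-- the largest entry -/
lemma max_entry {m : ℕ} (hm : 1 ≤ m) (D : Matrix (Fin m) (Fin m) ℝ) :
    ∃ a b : Fin m, Real.sqrt (fsq D) ≤ m * |D a b| := by
  have : Nonempty (Fin m) := ⟨⟨0, hm⟩⟩
  obtain ⟨p, -, hp⟩ := Finset.exists_max_image (Finset.univ : Finset (Fin m × Fin m))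
    (fun p => |D p.1 p.2|) Finset.univ_nonempty
  refine ⟨p.1, p.2, ?_⟩
  rw [Real.sqrt_le_left (by positivity)]
  unfold fsq
  calc ∑ i, ∑ j, D i j ^ 2 ≤ ∑ _i : Fin m, ∑ _j : Fin m, |D p.1 p.2| ^ 2 := by
        refine Finset.sum_le_sum (fun i _ => Finset.sum_le_sum (fun j _ => ?_))
        rw [← sq_abs (D i j)]
        exact pow_le_pow_left₀ (abs_nonneg _) (hp (i, j) (Finset.mem_univ _)) 2
    _ = (m * |D p.1 p.2|) ^ 2 := by
        rw [Finset.sum_const, Finset.sum_const, Finset.card_univ, Fintype.card_fin, nsmul_eq_mul,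
          nsmul_eq_mul]
        ring

end Pool.Agent.H74.GHK
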